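import Pool.Agent.Helper42.DB.Goals2

set_option autoImplicit false

/-! Packet GOODFULL of MP_48f005_an -/

namespace Pool.Agent.Helper42.DB.PkGOODFULL

open Set Filter Topology

theorem near_mono {S : Sys} {δ δ' : ℝ} {x y : St S} (h : Near δ x y) (hd : δ ≤ δ') :
    Near δ' x y := by
  rcases h with h | h | h | h | h | h | ⟨l, h1, h2, p, hp, v, hv, h3⟩
  · exact Or.inl (by linarith)
  · exact Or.inr (Or.inl (by linarith))
  · exact Or.inr (Or.inr (Or.inl (by linarith)))
  · exact Or.inr (Or.inr (Or.inr (Or.inl (by linarith))))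
  · exact Or.inr (Or.inr (Or.inr (Or.inr (Or.inl (by linarith)))))
  · exact Or.inr (Or.inr (Or.inr (Or.inr (Or.inr (Or.inl (by linarith))))))
  · exact Or.inr (Or.inr (Or.inr (Or.inr (Or.inr (Or.inr
      ⟨l, h1, h2, p, hp, v, hv, h3.trans_le hd⟩)))))

theorem sing_congr {S : Sys} {a : ℕ} {w w' : ℕ → S.ι} (h : Sing S a w)
    (hw : ∀ k ≤ 2 * a + 1, w k = w' k) : Sing S a w' := by
  intro δ hδ
  obtain ⟨z, hz, hn⟩ := h δ hδ
  exact ⟨z, hz.congr hw, hn⟩

/-- a uniform `δ` for words of length `2 τ + 1` -/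
theorem unif (S : Sys) (τ : ℕ) : ∃ δ : ℝ, 0 < δ ∧ ∀ (v : ℕ → S.ι) (z : ℕ → St S),
    Cyl (2 * τ + 1) v z → Near δ (z τ) (z (τ + 1)) → Sing S τ v := by
  classical
  have h1 : ∀ f : Fin (2 * τ + 1 + 1) → S.ι, ∃ δ : ℝ, 0 < δ ∧ ∀ (v : ℕ → S.ι) (z : ℕ → St S),
      res (2 * τ + 1) v = f → Cyl (2 * τ + 1) v z → Near δ (z τ) (z (τ + 1)) → Sing S τ v := by
    intro f
    by_cases hf : ∃ v0 : ℕ → S.ι, res (2 * τ + 1) v0 = f ∧ Sing S τ v0
    · obtain ⟨v0, hv0, hs⟩ := hf
      refine ⟨1, one_pos, ?_⟩
      intro v z hv _ _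
      refine sing_congr hs ?_
      intro k hk
      have h2 := congrFun (hv0.trans hv.symm) ⟨k, by omega⟩
      exact h2
    · by_cases hg : ∃ v1 : ℕ → S.ι, res (2 * τ + 1) v1 = f
      · obtain ⟨v1, hv1⟩ := hg
        have h3 : ¬ Sing S τ v1 := fun h => hf ⟨v1, hv1, h⟩
        unfold Sing at h3
        push Not at h3
        obtain ⟨δ, hδ, h4⟩ := h3
        refine ⟨δ, hδ, ?_⟩
        intro v z hv hz hn
        exfalso
        refine h4 z (hz.congr ?_) hn
        intro k hk
        have h2 := congrFun (hv.trans hv1.symm) ⟨k, by omega⟩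
        exact h2
      · refine ⟨1, one_pos, ?_⟩
        intro v z hv _ _
        exact absurd ⟨v, hv⟩ hg
  choose D hD0 hD using h1
  by_cases hne : Nonempty (Fin (2 * τ + 1 + 1) → S.ι)
  · obtain ⟨f0, hf0⟩ := Finite.exists_min D
    refine ⟨D f0, hD0 f0, ?_⟩
    intro v z hz hn
    exact hD (res (2 * τ + 1) v) v z rfl hz (near_mono hn (hf0 _))
  · refine ⟨1, one_pos, ?_⟩
    intro v z hz hn
    exact absurd ⟨res (2 * τ + 1) v⟩ hne

theorem thm (S : Sys) : G_FULLPATH S → G_CLOSE S → G_GOODFULL S := by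
  classical
  intro hFP hCl τ
  obtain ⟨δ, hδ, hstar⟩ := unif S τ
  obtain ⟨r, hr, hclose⟩ := hCl δ hδ
  refine ⟨δ, r, hδ, hr, ?_⟩
  intro N W z hz
  -- window lemma
  have hwin : ∀ p : ℕ, τ ≤ p → p + τ + 1 ≤ N → Near δ (z p) (z (p + 1)) →
      Sing S τ (sh (p - τ) W) := by
    intro p h1 h2 h3
    apply hstar (sh (p - τ) W) (fun j => z (p - τ + j)) (hz.shift (by omega))
    have e1 : p - τ + τ = p := by omega
    have e2 : p - τ + (τ + 1) = p + 1 := by omega
    show Near δ (z (p - τ + τ)) (z (p - τ + (τ + 1)))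
    rw [e1, e2]
    exact h3
  refine ⟨?_, ?_⟩
  · intro t ht
    obtain ⟨ht1, ht2, ht3⟩ := ht
    constructor
    · intro hn
      have e : t - 1 + 1 = t := by omega
      have h1 := hwin (t - 1) (by omega) (by omega) (by rw [e]; exact hn)
      exact ht3 τ (t - 1 - τ) le_rfl (by omega) h1 ⟨by omega, by omega⟩
    · intro hn
      have h1 := hwin t (by omega) (by omega) hn
      exact ht3 τ (t - τ) le_rfl (by omega) h1 ⟨by omega, by omega⟩
  · intro t t' ht ht' htt x y hx hy
    obtain ⟨ht1, ht2, ht3⟩ := ht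
    obtain ⟨ht1', ht2', ht3'⟩ := ht'
    have hzt : Cyl (t' - t) (sh t W) (fun j => z (t + j)) := hz.shift (by omega)
    have hend : z (t + (t' - t)) = z t' := by
      congr 1
      omega
    rcases hFP (t' - t) (sh t W) (fun j => z (t + j)) x y (by omega) hzt with h | h
    · exact h
    · exfalso
      obtain ⟨k, hk, hm⟩ := h
      have hm' : ∀ δ' : ℝ, 0 < δ' → ∃ m : ℕ → St S, Cyl (t' - t) (sh t W) m ∧
          Near δ' (m k) (m (k + 1)) ∧ |(m 0).u - (z t).u| ≤ r ∧
          |(m (t' - t)).u - (z t').u| ≤ r := by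
        intro δ' hδ'
        obtain ⟨m, m1, m2, m3, m4⟩ := hm δ' hδ'
        refine ⟨m, m1, m2, ?_, ?_⟩
        · have := Set.abs_sub_left_of_mem_uIcc m3
          exact this.trans hx
        · have := Set.abs_sub_left_of_mem_uIcc m4
          simp only [hend] at this
          exact this.trans hy
      -- the flight number `t + k` is near singular
      have hnear : Near δ (z (t + k)) (z (t + k + 1)) := by
        by_contra hcon
        obtain ⟨m, m1, m2, m3, m4⟩ := hm' (δ / 2) (by linarith)
        have hc := hclose (t' - t) (sh t W) (fun j => z (t + j)) m k hk hzt m1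
          (by simpa using m3) (by simp only [hend]; exact m4) (by
            show ¬ Near δ (z (t + k)) (z (t + (k + 1)))
            rw [← add_assoc]; exact hcon)
        exact hc m2
      set p := t + k with hp
      have hSτ := hwin p (by omega) (by omega) hnear
      -- maximal window
      set P : ℕ → Prop := fun a => τ ≤ a ∧ a ≤ p ∧ p + a + 1 ≤ N ∧ Sing S a (sh (p - a) W)
        with hP
      have hPτ : P τ := ⟨le_rfl, by omega, by omega, hSτ⟩
      set a := Nat.findGreatest P N with ha
      have hPa : P a := Nat.findGreatest_spec (P := P) (m := τ) (by omega) hPτ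
      obtain ⟨a1, a2, a3, a4⟩ := hPa
      have b1 := ht3 a (p - a) a1 (by omega) a4
      have b2 := ht3' a (p - a) a1 (by omega) a4
      have c1 : t < p - a := by
        by_contra hcon
        exact b1 ⟨by omega, by omega⟩
      have c2 : p + a + 1 < t' := by
        by_contra hcon
        exact b2 ⟨by omega, by omega⟩
      have hPa' : P (a + 1) := by
        refine ⟨by omega, by omega, by omega, ?_⟩
        intro δ' hδ'
        obtain ⟨m, m1, m2, -, -⟩ := hm' δ' hδ'
        refine ⟨fun j => m (k - (a + 1) + j), ?_, ?_⟩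
        · have := m1.shift (s := k - (a + 1)) (m := 2 * (a + 1) + 1) (by omega)
          apply this.congr
          intro j _
          show W (t + (k - (a + 1) + j)) = W (p - (a + 1) + j)
          congr 1
          omega
        · have e1 : k - (a + 1) + (a + 1) = k := by omega
          have e2 : k - (a + 1) + (a + 1 + 1) = k + 1 := by omega
          show Near δ' (m (k - (a + 1) + (a + 1))) (m (k - (a + 1) + (a + 1 + 1)))
          rw [e1, e2]
          exact m2
      have := Nat.le_findGreatest (P := P) (n := N) (m := a + 1) (by omega) hPa'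
      omega

end Pool.Agent.Helper42.DB.PkGOODFULL
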